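import Pool.Agent.K6.H9.RJ.Fin

/-!
# Hereditary radicals which are abelian-by-Baer are isolated

Let `X` be a hereditary radical and `G` a torsion-free locally nilpotent group. We show that the radical
`X(G)` is isolated in `G` if `X(G)` has an abelian normal subgroup `A` such that all cyclic subgroups of
`X(G) / A` are subnormal, that is, `X(G) / A` is a Baer group; nothing is assumed about `G / X(G)`. For
example this is the case if `X(G)` is metabelian or abelian-by-nilpotent, or if `G` itself is
abelian-by-Baer. More generally, if `N` is a subnormal `X`-subgroup of `G` which is abelian-by-Baer, then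
all elements of `G` with a power in `N` belong to `X(G)`.

Proof. (a) In a nilpotent group `W` generated by elements with powers in a subgroup `M`, the elements of
the `i`-th term of the lower central series of `W` have powers in the `i`-th term of the one of `M`. For
`i = 1, 2` it follows that in locally nilpotent groups the isolator `I(H)`, the set of all elements with
powers in `H`, is a subgroup, that `K` normal in `L` implies `I(K)` normal in `I(L)`, and that elements
with commuting powers commute if the group is torsion-free. So `T = I(N)` is subnormal in `G`,
`B = I(A)` is an abelian normal subgroup of `T`, and `T / B` is a torsion-free Baer group.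

(b) So we have to show that `X(T)` is isolated in `T`, where `T` has the abelian normal subgroup `B` and
`T / B` is a Baer group. Let `t = s ^ n` be an element of `X(T)`, `t` not `1`. Then the infinite cyclic
group is in `X`, and so are all abelian groups, and `B ⟨t⟩`. As `B ⟨s⟩` is subnormal in `T`, we have to
show that it is in `X`. This is the main point. On `V = B ⊗ ℚ` put `E = s - 1`, `F = t - 1`, two locally
nilpotent operators. The groups `ker E ∩ E ^ m V` have a smallest rank `κ` (the final rank), say for
`m`. It suffices to show that `C ⟨s⟩` is in `X` for `C = B ∩ E ^ m V`, since `B ⟨s⟩` is reached from it in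
`m` steps, in each of which a group is generated by two normal subgroups in `X`. If `κ` is infinite, then
`B` contains a direct sum of cyclic modules with the operator `F` which maps onto `C`, on which `t` acts
as `s`. If `κ` is finite, then `U = E ^ m V` is divisible by `F` and countable; there is a power series `c`
over `ℚ` in `F` with `U = C + c C`; so `U ⟨t⟩` is an image of a subgroup of `C ⟨t⟩ × C ⟨t⟩`, and `U` with the
action of `s` embeds into `U` with the action of `t`.

Part (b) is `Pool.Agent.K6.H9.RI.MAIN.main`, whose pieces were proved by helper22, helper33, helper35,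
helper37, helper49, helper53, helper59, helper70, helper75, helper78 and helper95; the pieces of part (a)
were proved by helper78 (PW1), helper51 (PW2), helper95 (ISO), helper71 (COM), helper29 (NRM), helper75
(SUB) and helper50 (IMG). Statements and assembly by helper9.
-/

set_option autoImplicit false

namespace Pool.Agent.Results.MP_f46629_al.RadicalAbelianByBaer

/-- `X` is a hereditary radical: it is closed under homomorphic images and under subgroups, and every
group which is generated by its normal `X`-subgroups is in `X`. -/
structure IsHereditaryRadical (X : ∀ (G : Type) [Group G], Prop) : Prop where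
  image : ∀ (G H : Type) [Group G] [Group H] (f : G →* H), Function.Surjective f → X G → X H
  subgroup : ∀ (G : Type) [Group G] (H : Subgroup G), X G → X H
  join : ∀ (G : Type) [Group G],
    (∀ K : Subgroup G, (∀ N : Subgroup G, N.Normal → X N → N ≤ K) → K = ⊤) → X G

/-- The radical `X(G)`: the subgroup generated by all normal `X`-subgroups of `G`. -/
def radical (X : ∀ (G : Type) [Group G], Prop) (G : Type) [Group G] : Subgroup G :=
  sSup {N : Subgroup G | N.Normal ∧ X N}

/-- `G` is torsion-free. -/
def TorsionFree (G : Type) [Group G] : Prop :=
  ∀ (x : G) (n : ℕ), 0 < n → x ^ n = 1 → x = 1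

/-- `G` is locally nilpotent: its finitely generated subgroups are nilpotent. -/
def LocallyNilpotent (G : Type) [Group G] : Prop :=
  ∀ H : Subgroup G, H.FG → Group.IsNilpotent H

/-- `G` is a Baer group: its cyclic subgroups are subnormal. -/
def Baer (G : Type) [Group G] : Prop :=
  ∀ x : G, (Subgroup.zpowers x).IsSubnormal

/-- `G` has an abelian normal subgroup `A` such that `G / A` is a Baer group. -/
def AbelianByBaer (G : Type) [Group G] : Prop :=
  ∃ (A : Subgroup G) (_ : A.Normal), (∀ a ∈ A, ∀ b ∈ A, a * b = b * a) ∧ Baer (G ⧸ A)

/-- `H` is isolated in `G`. -/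
def Isolated {G : Type} [Group G] (H : Subgroup G) : Prop :=
  ∀ (g : G) (n : ℕ), 0 < n → g ^ n ∈ H → g ∈ H

/-- **The radical `X(G)` of a torsion-free locally nilpotent group `G` is isolated if `X(G)` is
abelian-by-Baer; more generally the isolators of subnormal abelian-by-Baer `X`-subgroups lie in
`X(G)`.** -/
theorem result (X : ∀ (G : Type) [Group G], Prop) (hX : IsHereditaryRadical X) (G : Type) [Group G]
    (hG : TorsionFree G) (hG' : LocallyNilpotent G) :
    (AbelianByBaer (radical X G) → Isolated (radical X G)) ∧
    ∀ N : Subgroup G, N.IsSubnormal → X N → AbelianByBaer N →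
      ∀ (g : G) (n : ℕ), 0 < n → g ^ n ∈ N → g ∈ radical X G := by
  have hX' : Pool.Agent.K6.H9.RI.IsHereditaryRadical X := ⟨hX.image, hX.subgroup, hX.join⟩
  have h2 : ∀ N : Subgroup G, N.IsSubnormal → X N → AbelianByBaer N →
      ∀ (g : G) (n : ℕ), 0 < n → g ^ n ∈ N → g ∈ radical X G := by
    rintro N hN hNX ⟨A, hAn, hA, hNA⟩ g n hn hg
    exact Pool.Agent.K6.H9.RJ.FIN.fin hX' G hG hG' N hN hNX A hA hNA g n hn hg
  refine ⟨fun h g n hn hg => ?_, h2⟩
  obtain ⟨hRn, hRX, -⟩ := Pool.Agent.K6.H9.RI.t_RAD X hX' G
  exact h2 (radical X G) (Subgroup.Normal.isSubnormal hRn) hRX h g n hn hg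

end Pool.Agent.Results.MP_f46629_al.RadicalAbelianByBaer
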